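import Mathlib
import Pool.Agent.MLat.H

/-!
# Finite modular lattices of order dimension at most 11 represent every finite group

MP_be50aa_co, Q1, negated form, in a sharper version of our proof of the frozen statement S11150:
every finite group is isomorphic to the automorphism group of a finite modular lattice of order
dimension at most `11` and height at most `13`. The order dimension is the one of Dushnik and
Miller: the least number of linear orders on the underlying set whose intersection is the order.

The lattice. For a finite set `Ω` let `M Ω` be the lattice with a least element, a greatest element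
and the atoms `Ω` (`Pool/Agent/MLat/M.lean`). For two permutations `t₁, t₂` of `Ω` the tuples
`(x, s)` in `(M Ω) ^ {a, b, c, d, e} × {0, 1, 2, 3}` with `x c ≤ x a`, `x c ≤ x b`, `x d ≤ x a`,
`x d ≤ t₁ (x b)`, `x e ≤ x a`, `x e ≤ t₂ (x b)`, and `s ≥ 1, 2, 3` if `x b`, `x d`, `x e` is not the
least element, form a sublattice `L t₁ t₂` (`L.lean`); it is modular, embeds into a product of `11`
chains and has height at most `13`. Its automorphisms are the permutations of `Ω` which commute with
`t₁` and `t₂` (`A.lean`). For `Ω = G × ZMod |G|` and two suitable permutations this is `G` acting by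
left multiplication (`G.lean`). The sublattices are of bounded height and bounded order dimension,
but their intervals of height two are not of bounded size, as they must be by the theorem of 1981
listed in the problem.
-/

set_option autoImplicit false

namespace Pool.Agent.Results.MP_be50aa_co.DimensionEleven

/-- The order dimension of `P` (Dushnik and Miller) is at most `k`: there are `j` linear orders on
the underlying set of `P`, `1 ≤ j ≤ k`, whose intersection is the order of `P`. -/
def OrderDimLE (P : Type) [LE P] (k : ℕ) : Prop :=
  ∃ j : ℕ, 1 ≤ j ∧ j ≤ k ∧ ∃ r : Fin j → LinearOrder P, ∀ x y : P, x ≤ y ↔ ∀ i, (r i).le x y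

/-- The height of `P` is at most `h`: a chain in `P` has at most `h + 1` elements. -/
def HeightLE (P : Type) [LE P] (h : ℕ) : Prop :=
  ∀ c : Finset P, IsChain (· ≤ ·) (c : Set P) → c.card ≤ h + 1

/-- Every finite group `G` is isomorphic to the group of the automorphisms (with composition) of a
finite modular lattice of order dimension at most `11` and height at most `13`. -/
theorem result :
    ∀ (G : Type) [Group G] [Finite G],
      ∃ (L : Type) (_ : Lattice L),
        Finite L ∧ IsModularLattice L ∧ OrderDimLE L 11 ∧ HeightLE L 13 ∧
          Nonempty (G ≃* (L ≃o L)) := by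
  intro G _ _
  obtain ⟨L, _, h1, h2, ⟨e⟩, h3, φ, hφ⟩ := Pool.Agent.MLat.exists_lattice_height G
  refine ⟨L, inferInstance, h2, h1, ?_, h3, ⟨MulEquiv.mk' φ fun a b => hφ a b⟩⟩
  obtain ⟨r, hr⟩ := Pool.Agent.MLat.exists_realizer e
  exact ⟨11, by norm_num, le_rfl, r, hr⟩

end Pool.Agent.Results.MP_be50aa_co.DimensionEleven
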